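import Pool.Agent.H13.EV.Defs
import Pool.Agent.H33.HP.CL

/-!
# Module PT: opposite points
-/

open Polynomial

namespace Pool.Agent.H74.EV

open Pool.Agent.H62.HE hiding T_CL
open Pool.Agent.H13.EV

universe u

theorem pt : T_PT.{u} := by
  intro k _ f x y h2 hf hy
  have hdvd : (X - C x : k[X]) ∣ (C y) ^ 2 - f := by
    rw [dvd_iff_isRoot, IsRoot.def, eval_sub, eval_pow, eval_C, hy, sub_self]
  unfold Pool.Agent.H13.EV.pt
  by_cases hy0 : y = 0
  · subst hy0
    have hroot : f.eval x = 0 := by rw [← hy]; simp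
    obtain ⟨h, hh⟩ : (X - C x : k[X]) ∣ f := dvd_iff_isRoot.2 hroot
    have hcop : IsCoprime (X - C x : k[X]) h := by
      rw [(irreducible_X_sub_C x).coprime_iff_not_dvd]
      intro hd
      rw [hh] at hf
      have := hf (X - C x) (mul_dvd_mul_left _ hd)
      exact (irreducible_X_sub_C x).not_isUnit this
    obtain ⟨p, q, hpq⟩ := hcop
    rw [neg_zero, C_0, II, Ideal.span_pair_mul_span_pair, neg_zero]
    apply le_antisymm
    · rw [Ideal.span_le]
      rintro z (rfl | rfl | rfl | rfl)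
      · exact Ideal.mem_span_singleton.2 ⟨_, rfl⟩
      · exact Ideal.mem_span_singleton.2 ⟨_, rfl⟩
      · exact Ideal.mem_span_singleton.2 ⟨_, mul_comm _ _⟩
      · refine Ideal.mem_span_singleton.2 ⟨⟨h, 0⟩, ?_⟩
        ext1
        · simp
          exact hh
        · simp
    · rw [Ideal.span_singleton_le_iff_mem]
      have e : (⟨X - C x, 0⟩ : HR k f) = ⟨p, 0⟩ * (⟨X - C x, 0⟩ * ⟨X - C x, 0⟩) +
          ⟨q, 0⟩ * ((⟨0, 1⟩ : HR k f) * ⟨0, 1⟩) := by
        ext1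
        · simp
          linear_combination (-(X - C x)) * hpq - q * hh
        · simp
      have key : (⟨p, 0⟩ : HR k f) * (⟨X - C x, 0⟩ * ⟨X - C x, 0⟩) +
          ⟨q, 0⟩ * ((⟨0, 1⟩ : HR k f) * ⟨0, 1⟩) ∈ Ideal.span {(⟨X - C x, 0⟩ : HR k f) *
          ⟨X - C x, 0⟩, ⟨X - C x, 0⟩ * ⟨0, 1⟩, ⟨0, 1⟩ * ⟨X - C x, 0⟩, ⟨0, 1⟩ * ⟨0, 1⟩} := by
        refine add_mem (Ideal.mul_mem_left _ _ (Ideal.subset_span ?_))
          (Ideal.mul_mem_left _ _ (Ideal.subset_span ?_))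
        · exact Or.inl rfl
        · exact Or.inr (Or.inr (Or.inr rfl))
      rw [← e] at key
      exact key
  · have := Pool.Agent.H33.HP.CL.II_mul h2 f (X - C x) (C y) hdvd
      ⟨0, C y⁻¹, by rw [zero_mul, zero_add, ← C_mul, inv_mul_cancel₀ hy0, C_1]⟩
    rw [← C_neg] at this
    exact this

end Pool.Agent.H74.EV
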