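import Pool.Agent.H64.EV.Targets

/-!
# Complete intersections of even dimension, row OBL: the blocks of the powers
-/

set_option autoImplicit false

open Matrix Pool.Agent.H64.CC Pool.Agent.H2.NL Pool.Agent.H64.EV

namespace Pool.Agent.H74.EV

section

variable {K : Type} [Field K] {V P : Type} [Fintype V] [DecidableEq V] [Fintype P] [DecidableEq P]

omit [DecidableEq V] [DecidableEq P] in
private theorem sum4 (f : (V ⊕ P) × (V ⊕ P) → K) : ∑ x, f x =
    (∑ p, ∑ q, f (Sum.inl p, Sum.inl q) + ∑ p, ∑ y, f (Sum.inl p, Sum.inr y)) +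
      (∑ y, ∑ p, f (Sum.inr y, Sum.inl p) + ∑ z, ∑ y, f (Sum.inr z, Sum.inr y)) := by
  rw [Fintype.sum_prod_type, Fintype.sum_sum_type]
  simp only [Fintype.sum_sum_type, Finset.sum_add_distrib]

private theorem right (F : OForm K (V ⊕ P))
    (G : Matrix ((V ⊕ P) × (V ⊕ P)) ((V ⊕ P) × (V ⊕ P)) K) (h : G * F.Sx = -G)
    (x : (V ⊕ P) × (V ⊕ P)) (a b : V ⊕ P) :
    G x (b, a) = -(ks K (F.o a) (F.o b)) * G x (a, b) := by
  have h1 : (G * F.Sx) x (b, a) = -G x (b, a) := by rw [h]; rfl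
  rw [Matrix.mul_apply, Finset.sum_eq_single (a, b)] at h1
  · have h2 : F.Sx (a, b) (b, a) = ks K (F.o a) (F.o b) := by
      unfold OForm.Sx
      rw [Matrix.of_apply, if_pos ⟨rfl, rfl⟩]
    rw [h2] at h1
    linear_combination h1
  · intro z _ hz
    have h2 : F.Sx z (b, a) = 0 := by
      unfold OForm.Sx
      rw [Matrix.of_apply, if_neg]
      rintro ⟨h3, h4⟩
      exact hz (Prod.ext h3 h4)
    rw [h2, mul_zero]
  · intro h2
    exact absurd (Finset.mem_univ _) h2

private theorem left (F : OForm K (V ⊕ P))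
    (G : Matrix ((V ⊕ P) × (V ⊕ P)) ((V ⊕ P) × (V ⊕ P)) K) (h : F.Sx * G = -G)
    (y : (V ⊕ P) × (V ⊕ P)) (a b : V ⊕ P) :
    G (b, a) y = -(ks K (F.o a) (F.o b)) * G (a, b) y := by
  have h1 : (F.Sx * G) (b, a) y = -G (b, a) y := by rw [h]; rfl
  rw [Matrix.mul_apply, Finset.sum_eq_single (a, b)] at h1
  · have h2 : F.Sx (b, a) (a, b) = ks K (F.o a) (F.o b) := by
      unfold OForm.Sx
      rw [Matrix.of_apply, if_pos ⟨rfl, rfl⟩, ks_comm]
    rw [h2] at h1
    linear_combination h1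
  · intro z _ hz
    have h2 : F.Sx (b, a) z = 0 := by
      unfold OForm.Sx
      rw [Matrix.of_apply, if_neg]
      rintro ⟨h3, h4⟩
      exact hz (Prod.ext h4.symm h3.symm)
    rw [h2, zero_mul]
  · intro h2
    exact absurd (Finset.mem_univ _) h2

private theorem pow_right (F : OForm K (V ⊕ P))
    (g : Matrix ((V ⊕ P) × (V ⊕ P)) ((V ⊕ P) × (V ⊕ P)) K) (h : g * F.Sx = -g) (n : ℕ) :
    g ^ (n + 1) * F.Sx = -g ^ (n + 1) := by
  rw [pow_succ, Matrix.mul_assoc, h, Matrix.mul_neg]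

private theorem pow_left (F : OForm K (V ⊕ P))
    (g : Matrix ((V ⊕ P) × (V ⊕ P)) ((V ⊕ P) × (V ⊕ P)) K) (h : F.Sx * g = -g) (n : ℕ) :
    F.Sx * g ^ (n + 1) = -g ^ (n + 1) := by
  rw [pow_succ', ← Matrix.mul_assoc, h, Matrix.neg_mul]

/-- the column of `(p, y)` of a product -/
private theorem star (F : OForm K (V ⊕ P))
    (G g : Matrix ((V ⊕ P) × (V ⊕ P)) ((V ⊕ P) × (V ⊕ P)) K) (hG : G * F.Sx = -G)
    (hg : F.Sx * g = -g)
    (h5 : ∀ x (p : V) (y : P), g x (Sum.inl p, Sum.inr y) ≠ 0 →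
      ∃ y' : P, x = (Sum.inl p, Sum.inr y') ∨ x = (Sum.inr y', Sum.inl p))
    (x : (V ⊕ P) × (V ⊕ P)) (p : V) (y : P) : (G * g) x (Sum.inl p, Sum.inr y) =
      2 * ∑ y' : P, G x (Sum.inl p, Sum.inr y') *
        g (Sum.inl p, Sum.inr y') (Sum.inl p, Sum.inr y) := by
  have hz : ∀ z, (∀ y' : P, z ≠ (Sum.inl p, Sum.inr y') ∧ z ≠ (Sum.inr y', Sum.inl p)) →
      G x z * g z (Sum.inl p, Sum.inr y) = 0 := by
    intro z hz
    by_cases h : g z (Sum.inl p, Sum.inr y) = 0
    · rw [h, mul_zero]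
    · obtain ⟨y', h1 | h1⟩ := h5 z p y h
      · exact absurd h1 (hz y').1
      · exact absurd h1 (hz y').2
  rw [Matrix.mul_apply, sum4]
  have e1 : ∑ p', ∑ q', G x (Sum.inl p', Sum.inl q') *
      g (Sum.inl p', Sum.inl q') (Sum.inl p, Sum.inr y) = 0 :=
    Finset.sum_eq_zero fun p' _ => Finset.sum_eq_zero fun q' _ => hz _ fun y' =>
      ⟨fun h => by simp at h, fun h => by simp at h⟩
  have e4 : ∑ z, ∑ y', G x (Sum.inr z, Sum.inr y') *
      g (Sum.inr z, Sum.inr y') (Sum.inl p, Sum.inr y) = 0 :=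
    Finset.sum_eq_zero fun p' _ => Finset.sum_eq_zero fun q' _ => hz _ fun y' =>
      ⟨fun h => by simp at h, fun h => by simp at h⟩
  have e2 : ∑ p', ∑ y', G x (Sum.inl p', Sum.inr y') *
      g (Sum.inl p', Sum.inr y') (Sum.inl p, Sum.inr y) =
      ∑ y' : P, G x (Sum.inl p, Sum.inr y') *
        g (Sum.inl p, Sum.inr y') (Sum.inl p, Sum.inr y) := by
    rw [Finset.sum_eq_single p]
    · intro p' _ hp
      refine Finset.sum_eq_zero fun y' _ => hz _ fun y'' => ⟨fun h => ?_, fun h => by simp at h⟩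
      simp only [Prod.mk.injEq, Sum.inl.injEq] at h
      exact hp h.1
    · intro h
      exact absurd (Finset.mem_univ _) h
  have e3 : ∑ y', ∑ p', G x (Sum.inr y', Sum.inl p') *
      g (Sum.inr y', Sum.inl p') (Sum.inl p, Sum.inr y) =
      ∑ y' : P, G x (Sum.inl p, Sum.inr y') *
        g (Sum.inl p, Sum.inr y') (Sum.inl p, Sum.inr y) := by
    refine Finset.sum_congr rfl fun y' _ => ?_
    rw [Finset.sum_eq_single p]
    · rw [right F G hG x (Sum.inl p) (Sum.inr y'), left F g hg _ (Sum.inl p) (Sum.inr y')]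
      have := ks_mul_self K (F.o (Sum.inl p)) (F.o (Sum.inr y'))
      linear_combination (G x (Sum.inl p, Sum.inr y') *
        g (Sum.inl p, Sum.inr y') (Sum.inl p, Sum.inr y)) * this
    · intro p' _ hp
      refine hz _ fun y'' => ⟨fun h => by simp at h, fun h => ?_⟩
      simp only [Prod.mk.injEq, Sum.inl.injEq] at h
      exact hp h.2
    · intro h
      exact absurd (Finset.mem_univ _) h
  rw [e1, e2, e3, e4]
  ring

/-- powers preserve the parity -/
private theorem pow_par (o : P → Bool) (m : Matrix P P K) (hm : ∀ a b, m a b ≠ 0 → o a = o b)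
    (n : ℕ) : ∀ a b, (m ^ (n + 1)) a b ≠ 0 → o a = o b := by
  induction n with
  | zero =>
    intro a b h
    rw [zero_add, pow_one] at h
    exact hm a b h
  | succ n ih =>
    intro a b h
    rw [pow_succ, Matrix.mul_apply] at h
    obtain ⟨c, _, hc⟩ := Finset.exists_ne_zero_of_sum_ne_zero h
    exact (ih a c (left_ne_zero_of_mul hc)).trans (hm c b (right_ne_zero_of_mul hc))

end

theorem pf_OBL : T_OBL := by
  intro K _ _ V P _ _ _ _ F A hS g hV h1 h2 h3 h4 h5 h6 h7
  obtain ⟨p0⟩ := hV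
  set m : Matrix P P K :=
    Matrix.of fun y' y => g (Sum.inl p0, Sum.inr y') (Sum.inl p0, Sum.inr y) with hm
  set u : Matrix (P × P) (P × P) K :=
    Matrix.of fun z y => g (Sum.inr z.1, Sum.inr z.2) (Sum.inr y.1, Sum.inr y.2) with hu
  have hm1 : ∀ (p : V) (y y' : P), m y' y = g (Sum.inl p, Sum.inr y') (Sum.inl p, Sum.inr y) :=
    fun p y y' => h7 p0 p y y'
  have hu1 : ∀ z y : P × P, u z y =
      g (Sum.inr z.1, Sum.inr z.2) (Sum.inr y.1, Sum.inr y.2) := fun z y => rfl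
  have hpar : ∀ a b, m a b ≠ 0 → F.o (Sum.inr a) = F.o (Sum.inr b) := by
    intro a b h
    have h8 := h1 (Sum.inl p0, Sum.inr a) (Sum.inl p0, Sum.inr b) h
    simp only [Bool.xor_right_inj] at h8
    exact h8
  refine ⟨m, u, hm1, hu1, hpar, fun n => ?_⟩
  have F1 : ∀ n : ℕ, ∀ x (p q : V), (g ^ (n + 1)) x (Sum.inl p, Sum.inl q) = 0 := by
    intro n x p q
    rw [pow_succ, Matrix.mul_apply]
    exact Finset.sum_eq_zero fun z _ => by rw [h4, mul_zero]
  have F3 : ∀ n : ℕ, ∀ (p : V) (y y' : P),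
      (g ^ (n + 1)) (Sum.inl p, Sum.inr y') (Sum.inl p, Sum.inr y) =
        2 ^ n * (m ^ (n + 1)) y' y := by
    intro n
    induction n with
    | zero =>
      intro p y y'
      rw [zero_add, pow_one, pow_one, pow_zero, one_mul]
      exact (hm1 p y y').symm
    | succ n ih =>
      intro p y y'
      rw [pow_succ g, star F (g ^ (n + 1)) g (pow_right F g h2 n) h3 h5, pow_succ m,
        Matrix.mul_apply, Finset.mul_sum, Finset.mul_sum]
      refine Finset.sum_congr rfl fun z _ => ?_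
      rw [ih p z y', ← hm1 p y z]
      ring
  have F4 : ∀ n : ℕ, ∀ z y : P × P, (g ^ (n + 1)) (Sum.inr z.1, Sum.inr z.2)
      (Sum.inr y.1, Sum.inr y.2) = (u ^ (n + 1)) z y := by
    intro n
    induction n with
    | zero =>
      intro z y
      rw [zero_add, pow_one, pow_one]
      rfl
    | succ n ih =>
      intro z y
      have hz : ∀ x, (∀ z z' : P, x ≠ (Sum.inr z, Sum.inr z')) →
          (g ^ (n + 1)) (Sum.inr z.1, Sum.inr z.2) x * g x (Sum.inr y.1, Sum.inr y.2) = 0 := by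
        intro x hx
        by_cases h : g x (Sum.inr y.1, Sum.inr y.2) = 0
        · rw [h, mul_zero]
        · rcases h6 x y.1 y.2 h with ⟨a, b, h8⟩ | ⟨p, q, h8⟩
          · exact absurd h8 (hx a b)
          · rw [h8, F1 n, zero_mul]
      rw [pow_succ g, Matrix.mul_apply, sum4, pow_succ u, Matrix.mul_apply]
      have e1 : ∑ p', ∑ q', (g ^ (n + 1)) (Sum.inr z.1, Sum.inr z.2) (Sum.inl p', Sum.inl q') *
          g (Sum.inl p', Sum.inl q') (Sum.inr y.1, Sum.inr y.2) = 0 :=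
        Finset.sum_eq_zero fun p' _ => Finset.sum_eq_zero fun q' _ => hz _ fun a b h => by
          simp at h
      have e2 : ∑ p', ∑ q', (g ^ (n + 1)) (Sum.inr z.1, Sum.inr z.2) (Sum.inl p', Sum.inr q') *
          g (Sum.inl p', Sum.inr q') (Sum.inr y.1, Sum.inr y.2) = 0 :=
        Finset.sum_eq_zero fun p' _ => Finset.sum_eq_zero fun q' _ => hz _ fun a b h => by
          simp at h
      have e3 : ∑ q', ∑ p', (g ^ (n + 1)) (Sum.inr z.1, Sum.inr z.2) (Sum.inr q', Sum.inl p') *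
          g (Sum.inr q', Sum.inl p') (Sum.inr y.1, Sum.inr y.2) = 0 :=
        Finset.sum_eq_zero fun p' _ => Finset.sum_eq_zero fun q' _ => hz _ fun a b h => by
          simp at h
      rw [e1, e2, e3, zero_add, zero_add, Fintype.sum_prod_type, zero_add]
      refine Finset.sum_congr rfl fun a _ => Finset.sum_congr rfl fun b _ => ?_
      rw [← ih (z) (a, b)]
      rfl
  refine ⟨F1 n, F3 n, fun p y y' => ?_, F4 n⟩
  have hR := right F (g ^ (n + 1)) (pow_right F g h2 n) (Sum.inl p, Sum.inr y') (Sum.inl p)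
    (Sum.inr y)
  have hL := left F (g ^ (n + 1)) (pow_left F g h3 n) (Sum.inr y, Sum.inl p) (Sum.inl p)
    (Sum.inr y')
  rw [hL, hR, F3 n p y y']
  by_cases h : (m ^ (n + 1)) y' y = 0
  · rw [h]; ring
  · have h8 : F.o (Sum.inr y') = F.o (Sum.inr y) :=
      pow_par (fun y => F.o (Sum.inr y)) m hpar n y' y h
    rw [h8]
    have := ks_mul_self K (F.o (Sum.inl p)) (F.o (Sum.inr y))
    linear_combination (2 ^ n * (m ^ (n + 1)) y' y) * this

end Pool.Agent.H74.EV
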